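import Pool.Agent.H30.FA.TA
import Pool.Agent.H30.FA.TC

set_option autoImplicit false

/-!
MP_6a7a6f_gt, board fas_modules, row REC: some power of an approximate symmetry nearly fixes all
basis vectors with large eigenvalues.
-/

namespace Pool.Agent.H67.FA

open Pool.Agent.H59 Pool.Agent.H48.FR Pool.Agent.H58.FL Pool.Agent.H30.FA

/-- two of many bounded functions are close to each other -/
private theorem pigeon (M : ℕ) (s : ℝ) (hs : 0 < s) : ∃ Q : ℕ,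
    ∀ f : ℕ → (Fin M × Fin M → ℂ), (∀ j p, ‖f j p‖ ≤ 1) →
    ∃ j j', j < j' ∧ j' ≤ Q ∧ ∀ p, ‖f j' p - f j p‖ ≤ s := by
  classical
  have hc : IsCompact (Metric.closedBall (0 : Fin M × Fin M → ℂ) 1) := isCompact_closedBall _ _
  obtain ⟨t, -, htf, ht⟩ := hc.finite_cover_balls (half_pos hs)
  refine ⟨htf.toFinset.card, fun f hf => ?_⟩
  have h1 : ∀ j, ∃ c ∈ t, f j ∈ Metric.ball c (s / 2) := by
    intro j
    have h2 : f j ∈ Metric.closedBall (0 : Fin M × Fin M → ℂ) 1 := by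
      rw [mem_closedBall_zero_iff]
      exact (pi_norm_le_iff_of_nonneg zero_le_one).2 (hf j)
    have h3 := ht h2
    rw [Set.mem_iUnion₂] at h3
    obtain ⟨c, hct, hcb⟩ := h3
    exact ⟨c, hct, hcb⟩
  choose c hct hcb using h1
  have key : ∀ a b, c a = c b → ∀ p, ‖f a p - f b p‖ ≤ s := by
    intro a b hab p
    have h4 : dist (f a) (f b) < s := by
      have h := dist_triangle_right (f a) (f b) (c a)
      have h5 := hcb a
      have h6 := hcb b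
      rw [← hab] at h6
      rw [Metric.mem_ball] at h5 h6
      linarith
    have h7 := norm_le_pi_norm (f a - f b) p
    rw [dist_eq_norm] at h4
    exact h7.trans h4.le
  obtain ⟨j, hj, j', hj', hne, heq⟩ := Finset.exists_ne_map_eq_of_card_lt_of_maps_to
    (s := Finset.range (htf.toFinset.card + 1)) (t := htf.toFinset) (f := c)
    (by rw [Finset.card_range]; exact Nat.lt_succ_self _)
    (fun j _ => htf.mem_toFinset.2 (hct j))
  rcases lt_or_gt_of_ne hne with h | h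
  · exact ⟨j, j', h, Nat.lt_succ_iff.1 (Finset.mem_range.1 hj'), key _ _ heq.symm⟩
  · exact ⟨j', j, h, Nat.lt_succ_iff.1 (Finset.mem_range.1 hj), key _ _ heq⟩

private theorem decode {d M : ℕ} (S : Finset (Fin d)) (hS : S.card ≤ M) (a : Fin d) :
    ∃ dec : Fin M → Fin d, ∀ b ∈ S, ∃ p, dec p = b := by
  refine ⟨fun p => S.toList.getD p a, fun b hb => ?_⟩
  rw [← Finset.mem_toList] at hb
  obtain ⟨n, hn, hnb⟩ := List.mem_iff_getElem.1 hb
  have hnM : n < M := by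
    rw [Finset.length_toList] at hn
    omega
  refine ⟨⟨n, hnM⟩, ?_⟩
  change S.toList.getD n a = b
  rw [List.getD_eq_getElem _ _ hn, hnb]

theorem pf_REC (hBAS : T_BAS) (hCOM : T_COM) (hPDK : T_PDK) : T_REC := by
  classical
  intro δ s hδ hs
  obtain ⟨M, hM⟩ := exists_nat_gt (2 / δ)
  have hMpos : (0 : ℝ) < M := (div_pos two_pos hδ).trans hM
  obtain ⟨s1, hs1⟩ : ∃ s1, s1 = s / Real.sqrt (2 * M) := ⟨_, rfl⟩
  have hs1pos : 0 < s1 := by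
    rw [hs1]
    exact div_pos hs (Real.sqrt_pos.2 (by linarith))
  have hs1sq : s1 ^ 2 = s ^ 2 / (2 * M) := by
    rw [hs1, div_pow, Real.sq_sqrt (by linarith)]
  obtain ⟨Q, hQ⟩ := pigeon M s1 hs1pos
  have hden : (0 : ℝ) < 64 * ((Q + 1 : ℝ) ^ 2 + 1) := by positivity
  refine ⟨Q + 1, s ^ 2 * δ ^ 2 / (64 * ((Q + 1 : ℝ) ^ 2 + 1)), by positivity, ?_⟩
  intro κ J E _ _ _ d C g hg
  by_cases hex : ∃ a, δ ≤ C.r a
  swap
  · exact ⟨1, le_refl _, Nat.le_add_left _ _, fun a ha => absurd ⟨a, ha⟩ hex⟩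
  obtain ⟨a0, ha0⟩ := hex
  obtain ⟨_, hr0, _, _, _, _, _, hcard, _, hnorm, _⟩ := hBAS κ J E d C
  obtain ⟨S, hS⟩ : ∃ S : Finset (Fin d), S = Finset.univ.filter (fun b => δ / 2 ≤ C.r b) :=
    ⟨_, rfl⟩
  have hSM : (S.card : ℝ) ≤ M := by
    have h := hcard (δ / 2) (half_pos hδ)
    have h' : (S.card : ℝ) * (δ / 2) ≤ 1 := by
      rw [hS]
      exact h
    have h2 : (S.card : ℝ) ≤ 2 / δ := by
      rw [le_div_iff₀ hδ]
      linarith
    exact h2.trans hM.le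
  obtain ⟨dec, hdec⟩ := decode S (M := M) (by exact_mod_cast hSM) a0
  have hunit : ∀ a, ‖C.e a‖ = 1 := fun a => C.e.orthonormal.1 a
  obtain ⟨j, j', hjj, hj'Q, hclose⟩ := hQ
    (fun n p => inner ℂ (C.e (dec p.2)) ((g ^ n) (C.e (dec p.1)))) (by
      intro n p
      refine (norm_inner_le_norm _ _).trans ?_
      rw [LinearIsometryEquiv.norm_map, hunit, hunit, one_mul])
  have hcl : ∀ a ∈ S, ∀ b ∈ S,
      ‖inner ℂ (C.e b) ((g ^ j') (C.e a)) - inner ℂ (C.e b) ((g ^ j) (C.e a))‖ ≤ s1 := by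
    intro a ha b hb
    obtain ⟨p, hp⟩ := hdec a ha
    obtain ⟨q, hq⟩ := hdec b hb
    have h := hclose (p, q)
    dsimp only at h
    rwa [hp, hq] at h
  -- the tails
  have htail : ∀ n : ℕ, n ≤ Q → ∀ a, δ ≤ C.r a →
      ∑ b ∈ Sᶜ, ‖inner ℂ (C.e b) ((g ^ n) (C.e a))‖ ^ 2 ≤ s ^ 2 / 8 := by
    intro n hn a ha
    have h1 := hCOM κ J E d C (g ^ n)
    have h2 := (hPDK J E d C.e C.t C.x 1 g).2 n
    have h3 : ∑ b ∈ Sᶜ, ‖inner ℂ (C.e b) ((g ^ n) (C.e a))‖ ^ 2 * (δ ^ 2 / 4) ≤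
        ∑ a', ∑ b, ‖inner ℂ (C.e a') ((g ^ n) (C.e b))‖ ^ 2 * (C.r a' - C.r b) ^ 2 := by
      calc ∑ b ∈ Sᶜ, ‖inner ℂ (C.e b) ((g ^ n) (C.e a))‖ ^ 2 * (δ ^ 2 / 4)
          ≤ ∑ b ∈ Sᶜ, ‖inner ℂ (C.e b) ((g ^ n) (C.e a))‖ ^ 2 * (C.r b - C.r a) ^ 2 := by
            refine Finset.sum_le_sum fun b hb => ?_
            refine mul_le_mul_of_nonneg_left ?_ (sq_nonneg _)
            have hb' : C.r b < δ / 2 := by
              rw [Finset.mem_compl, hS, Finset.mem_filter, not_and] at hb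
              exact not_le.1 (hb (Finset.mem_univ b))
            nlinarith
        _ ≤ ∑ a', ‖inner ℂ (C.e a') ((g ^ n) (C.e a))‖ ^ 2 * (C.r a' - C.r a) ^ 2 :=
            Finset.sum_le_sum_of_subset_of_nonneg (Finset.subset_univ _)
              (fun _ _ _ => mul_nonneg (sq_nonneg _) (sq_nonneg _))
        _ ≤ ∑ a', ∑ b, ‖inner ℂ (C.e a') ((g ^ n) (C.e b))‖ ^ 2 * (C.r a' - C.r b) ^ 2 := by
            refine Finset.sum_le_sum fun a' _ => ?_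
            exact Finset.single_le_sum (f := fun b =>
              ‖inner ℂ (C.e a') ((g ^ n) (C.e b))‖ ^ 2 * (C.r a' - C.r b) ^ 2)
              (fun _ _ => mul_nonneg (sq_nonneg _) (sq_nonneg _)) (Finset.mem_univ a)
    rw [← h1, ← Finset.sum_mul] at h3
    have hnQ : (n : ℝ) ^ 2 ≤ (Q + 1 : ℝ) ^ 2 := by
      have : (n : ℝ) ≤ Q := by exact_mod_cast hn
      have hn0 : (0 : ℝ) ≤ n := Nat.cast_nonneg n
      nlinarith
    have hg0 : 0 ≤ qq C.t C.x 1 1 - qq C.t C.x 1 g := (hPDK J E d C.e C.t C.x 1 g).1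
    have h4 : qq C.t C.x 1 1 - qq C.t C.x 1 (g ^ n) ≤ s ^ 2 * δ ^ 2 / 64 := by
      refine h2.trans ?_
      calc (n : ℝ) ^ 2 * (qq C.t C.x 1 1 - qq C.t C.x 1 g)
          ≤ (Q + 1 : ℝ) ^ 2 * (s ^ 2 * δ ^ 2 / (64 * ((Q + 1 : ℝ) ^ 2 + 1))) :=
            mul_le_mul hnQ hg hg0 (sq_nonneg _)
        _ ≤ s ^ 2 * δ ^ 2 / 64 := by
            rw [mul_div_assoc', div_le_div_iff₀ hden (by norm_num)]
            have : 0 ≤ s ^ 2 * δ ^ 2 := by positivity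
            nlinarith
    have hδ2 : 0 < δ ^ 2 / 4 := by positivity
    have h5 : (∑ b ∈ Sᶜ, ‖inner ℂ (C.e b) ((g ^ n) (C.e a))‖ ^ 2) * (δ ^ 2 / 4) ≤
        s ^ 2 / 8 * (δ ^ 2 / 4) := by
      refine h3.trans ?_
      linarith
    exact le_of_mul_le_mul_right h5 hδ2
  refine ⟨j' - j, by omega, by omega, fun a ha => ?_⟩
  have haS : a ∈ S := by
    rw [hS, Finset.mem_filter]
    exact ⟨Finset.mem_univ a, by linarith⟩
  have hpow : (g ^ j') (C.e a) = (g ^ j) ((g ^ (j' - j)) (C.e a)) := by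
    have h : g ^ j' = g ^ j * g ^ (j' - j) := by
      rw [← pow_add]
      congr 1
      omega
    rw [h]
    rfl
  have hn1 : ‖(g ^ j') (C.e a) - (g ^ j) (C.e a)‖ = ‖(g ^ (j' - j)) (C.e a) - C.e a‖ := by
    rw [hpow, ← map_sub, LinearIsometryEquiv.norm_map]
  rw [← hn1]
  refine le_of_sq_le_sq ?_ hs.le
  rw [hnorm]
  have hb : ∀ b, ‖inner ℂ ((g ^ j') (C.e a) - (g ^ j) (C.e a)) (C.e b)‖ =
      ‖inner ℂ (C.e b) ((g ^ j') (C.e a)) - inner ℂ (C.e b) ((g ^ j) (C.e a))‖ := by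
    intro b
    rw [norm_inner_symm, inner_sub_right]
  have hsplit : ∑ b, ‖inner ℂ ((g ^ j') (C.e a) - (g ^ j) (C.e a)) (C.e b)‖ ^ 2 =
      ∑ b ∈ S, ‖inner ℂ ((g ^ j') (C.e a) - (g ^ j) (C.e a)) (C.e b)‖ ^ 2 +
      ∑ b ∈ Sᶜ, ‖inner ℂ ((g ^ j') (C.e a) - (g ^ j) (C.e a)) (C.e b)‖ ^ 2 :=
    (Finset.sum_add_sum_compl S _).symm
  rw [hsplit]
  have h6 : ∑ b ∈ S, ‖inner ℂ ((g ^ j') (C.e a) - (g ^ j) (C.e a)) (C.e b)‖ ^ 2 ≤ s ^ 2 / 2 := by
    calc ∑ b ∈ S, ‖inner ℂ ((g ^ j') (C.e a) - (g ^ j) (C.e a)) (C.e b)‖ ^ 2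
        ≤ ∑ b ∈ S, s1 ^ 2 := by
          refine Finset.sum_le_sum fun b hbS => ?_
          rw [hb]
          exact pow_le_pow_left₀ (norm_nonneg _) (hcl a haS b hbS) 2
      _ = S.card * s1 ^ 2 := by rw [Finset.sum_const, nsmul_eq_mul]
      _ ≤ M * s1 ^ 2 := mul_le_mul_of_nonneg_right hSM (sq_nonneg _)
      _ = s ^ 2 / 2 := by
          rw [hs1sq]
          field_simp
  have h7 : ∑ b ∈ Sᶜ, ‖inner ℂ ((g ^ j') (C.e a) - (g ^ j) (C.e a)) (C.e b)‖ ^ 2 ≤ s ^ 2 / 2 := by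
    calc ∑ b ∈ Sᶜ, ‖inner ℂ ((g ^ j') (C.e a) - (g ^ j) (C.e a)) (C.e b)‖ ^ 2
        ≤ ∑ b ∈ Sᶜ, (2 * ‖inner ℂ (C.e b) ((g ^ j') (C.e a))‖ ^ 2 +
            2 * ‖inner ℂ (C.e b) ((g ^ j) (C.e a))‖ ^ 2) := by
          refine Finset.sum_le_sum fun b _ => ?_
          rw [hb]
          have h8 := norm_sub_le (inner ℂ (C.e b) ((g ^ j') (C.e a)))
            (inner ℂ (C.e b) ((g ^ j) (C.e a)))
          have h9 := norm_nonneg (inner ℂ (C.e b) ((g ^ j') (C.e a)) -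
            inner ℂ (C.e b) ((g ^ j) (C.e a)))
          nlinarith [sq_nonneg (‖inner ℂ (C.e b) ((g ^ j') (C.e a))‖ -
            ‖inner ℂ (C.e b) ((g ^ j) (C.e a))‖)]
      _ = 2 * ∑ b ∈ Sᶜ, ‖inner ℂ (C.e b) ((g ^ j') (C.e a))‖ ^ 2 +
          2 * ∑ b ∈ Sᶜ, ‖inner ℂ (C.e b) ((g ^ j) (C.e a))‖ ^ 2 := by
          rw [Finset.sum_add_distrib, Finset.mul_sum, Finset.mul_sum]
      _ ≤ s ^ 2 / 2 := by
          have h10 := htail j' hj'Q a ha
          have h11 := htail j (by omega) a ha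
          linarith
  linarith

end Pool.Agent.H67.FA
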