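import Pool.Agent.H30.FA.TA
import Pool.Agent.H30.FA.TC

set_option autoImplicit false

/-!
MP_6a7a6f_gt, board fas_modules, row ORD: the order of the class is at least `n / C`.
-/

namespace Pool.Agent.H67.FA

open Pool.Agent.H59 Pool.Agent.H48.FR Pool.Agent.H58.FL Pool.Agent.H30.FA

theorem pf_ORD (hSEC : T_SEC) (hCOR : T_COR) : T_ORD := by
  intro ε₀ hε₀
  rcases le_or_gt ε₀ 0 with h0 | h0
  · exact ⟨1, le_refl _, fun n _ ε hε hle => absurd (hε.trans_le hle) (not_lt.2 h0)⟩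
  have hpi := Real.pi_pos
  obtain ⟨th, hth⟩ : ∃ th, th = (4 * ε₀ + 2 * Real.pi / 3) / 2 := ⟨_, rfl⟩
  have h1 : 4 * ε₀ < th := by
    rw [hth]
    linarith
  have h2 : th < 2 * Real.pi / 3 := by
    rw [hth]
    linarith
  have h3 : -(1 / 2) < Real.cos th := by
    have h4 : Real.cos (Real.pi - Real.pi / 3) = -(1 / 2) := by
      rw [Real.cos_pi_sub, Real.cos_pi_div_three]
    rw [← h4]
    refine Real.strictAntiOn_cos ⟨?_, ?_⟩ ⟨?_, ?_⟩ ?_
    · linarith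
    · linarith
    · linarith
    · linarith
    · linarith
  obtain ⟨κ, hκ⟩ : ∃ κ, κ = (1 + Real.cos th) / 2 := ⟨_, rfl⟩
  obtain ⟨κ₂, hκ₂⟩ : ∃ κ₂, κ₂ = (κ + 1 / 4) / 2 := ⟨_, rfl⟩
  have hk4 : 1 / 4 < κ := by
    rw [hκ]
    linarith
  have hk24 : 1 / 4 < κ₂ := by
    rw [hκ₂]
    linarith
  have hk2 : κ₂ < κ := by
    rw [hκ₂]
    linarith
  have hac : Real.arccos (2 * κ - 1) = th := by
    have h5 : 2 * κ - 1 = Real.cos th := by
      rw [hκ]
      ring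
    rw [h5, Real.arccos_cos (by linarith) (by linarith)]
  obtain ⟨m, hm⟩ := hSEC κ κ₂ hk24 hk2.le
  refine ⟨m.factorial * 2 ^ m, Nat.succ_le_of_lt (by positivity), ?_⟩
  intro n hn ε hε hle N hK
  rcases n with _ | _ | k
  · omega
  · exact one_dvd _
  · have h6 := hCOR κ κ₂ m hk24 hk2 hm k ε hε (hle.trans_lt hε₀) (by
      rw [hac]
      linarith) N hK
    rw [Nat.cast_mul, Nat.cast_pow]
    exact h6

end Pool.Agent.H67.FA
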